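import Pool.Agent.X264.HC.Main

/-!
# Hartshorne's conjecture on Chow groups of hypersurfaces: reduction to Fano hypersurfaces of large
index, and to the critical dimensions

`T` is a theory of Chow groups (rational coefficients) with the usual formal properties,
including the principle of Bloch and Srinivas (`IsChow`). `Hartshorne V` is the statement of Q1
for the hypersurface `V.X` with hyperplane class `V.h`: `A^i = ℚ h^i` for `2 i < dim`.

1. `A^i(X) = ℚ h^i` for all `i ≤ k` if and only if, for all `Y` and all `i ≤ k`, `A^i(X × Y)` is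
   spanned by the `h^j × b`, `b ∈ A^{i-j}(Y)`.
2. For every function `φ`, Q1 holds for all smooth hypersurfaces of degree `d ≥ 2` if and only if
   it holds for those with `dim ≥ φ(d)`.
3. If Q1 holds for `Z : f(x) = 0` and `U : f(x) + t^d = 0`, then `A^i(Y) = ℚ h^i` for
   `i < dim U / 2` and all `Y : f(x) + g(y) = 0` (any nonsingular form `g(y)` of degree `d`);
4. for `Y : f(x) + y_1^d + y_2^d = 0` this is Q1 for `Y` if `dim Y` is even; and Q1 for `Y`
   implies Q1 for `Z`.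
5. For `V_m : f(x) + t_1^d + … + t_m^d = 0`, Q1 for all `V_m` is equivalent to Q1 for `V_0`, `V_1`
   and `A^i(V_m) = ℚ h^i` in the critical case `dim V_m = 2 i + 1` for infinitely many `i`.
6. If `V_0` is a plane curve, this is equivalent to `A^i(V_{2i}) = ℚ h^i` for infinitely many `i`.
   (Example: all Fermat hypersurfaces of degree `d`.)
-/

open Pool.Agent.X264.HC Chow

namespace Pool.Agent.Results.MP_4be043_ag.FanoReduction

universe u v w

theorem result (T : Chow.{u, v, w}) (hT : T.IsChow) :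
    (∀ X h k, (∀ i ≤ k, T.IsCyclic X h i) ↔ ∀ i ≤ k, T.HasKunneth X h i) ∧
    (∀ Hyp : ℕ → T.Pol → Prop, HasJoins Hyp → ∀ φ : ℕ → ℕ,
      (∀ d, 2 ≤ d → ∀ V, Hyp d V → 1 ≤ T.dim V.X → T.Hartshorne V) ↔
        ∀ d, 2 ≤ d → ∀ V, Hyp d V → 1 ≤ T.dim V.X → φ d ≤ T.dim V.X → T.Hartshorne V) ∧
    (∀ Z U V Y : T.Pol, IsJoin Z U V Y → T.Hartshorne Z → T.Hartshorne U →
      ∀ i, 2 * i < T.dim U.X → T.IsCyclic Y.X Y.h i) ∧
    (∀ Z U Y : T.Pol, Linked Z U Y → (T.Hartshorne Y → T.Hartshorne Z) ∧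
      (Even (T.dim Y.X) → T.Hartshorne Z → T.Hartshorne U → T.Hartshorne Y)) ∧
    (∀ V : ℕ → T.Pol, IsTower V → ((∀ m, T.Hartshorne (V m)) ↔
      T.Hartshorne (V 0) ∧ T.Hartshorne (V 1) ∧ ∀ N, ∃ i, N ≤ i ∧ ∃ m,
        T.dim (V m).X = 2 * i + 1 ∧ T.IsCyclic (V m).X (V m).h i)) ∧
    (∀ V : ℕ → T.Pol, IsTower V → T.dim (V 0).X = 1 → ((∀ m, T.Hartshorne (V m)) ↔
      ∀ N, ∃ i, N ≤ i ∧ T.IsCyclic (V (2 * i)).X (V (2 * i)).h i)) := by
  refine ⟨fun X h k => ⟨fun H i hi => hasKunneth_of_isCyclic hT X h i fun i' hi' =>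
      H i' (hi'.trans hi), fun H i hi => isCyclic_of_hasKunneth hT X h i (H i hi)⟩,
    fun Hyp hH φ => hartshorne_iff_large hT hH φ,
    fun Z U V Y h hZ hU i hi => h.isCyclic hT hZ hU hi,
    fun Z U Y h => ⟨h.hartshorne_down hT, h.hartshorne_even hT⟩,
    fun V hV => hV.hartshorne_iff hT, fun V hV h0 => hV.hartshorne_iff_of_curve hT h0⟩

end Pool.Agent.Results.MP_4be043_ag.FanoReduction
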