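import Pool.Agent.X308.Hs.Main

/-!
# Hartshorne's question on the Chow groups of hypersurfaces: reduction to the critical dimension
-/

set_option autoImplicit false

namespace Pool.Agent.Results.MP_4be043_ag.ReductionToCriticalDimension

open Pool.Agent.X308.Hs

/-- **Theorem.** (A) `A^i(X) = ℚ h^i` for all `i ≥ 1` and all hypersurfaces `X` (with at most one
node) of dimension greater than `2 i` if and only if, for all `i ≥ 2` and all `X` of dimension
exactly `2 i + 1`, the classes in `A^i(X)` restrict to multiples of `h^i` on generic linear sections
of dimension `2 i - 1`. (B) The same in codimension two. (C) Given the statement in codimension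
`i ≥ 1`, the statement in codimension `i + 1` is equivalent to its restricted form in the critical
dimension `2 i + 3`, and in all dimensions. -/
theorem result (T : Theory) (hK : KnownFacts T) :
    ((∀ i, 1 ≤ i → Hartshorne T i) ↔ ∀ i, 2 ≤ i → CriticalDimension T i) ∧
    (Hartshorne T 2 ↔ CriticalDimension T 2) ∧
    (∀ i, 1 ≤ i → Hartshorne T i →
      (Hartshorne T (i + 1) ↔ CriticalDimension T (i + 1)) ∧
      (Hartshorne T (i + 1) ↔ AllDimensions T (i + 1))) :=
  ⟨all_codimensions hK, (equivalences hK le_rfl (hartshorne_one hK)).1,
    fun _ hi hC => equivalences hK hi hC⟩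

end Pool.Agent.Results.MP_4be043_ag.ReductionToCriticalDimension
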